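import Pool.Agent.H369R3.UT.Defs

set_option autoImplicit false

open Set Filter Topology Metric MeasureTheory

namespace Pool.Agent.H146R3.UT

open Pool.Agent.H369R3.UT

theorem taskI3 : Pool.Agent.H369R3.UT.TaskI3 := by
  intro hG1 hG2 hH hT hI1 hI2 n μ _ f a R M C δ hf hC hM hδ hδR hCM hlap
  have hS : MeasurableSet (contact f a R M ∩ ball a R) :=
    (hI2 n f a R M hf.continuous).measurableSet.inter isOpen_ball.measurableSet
  have key : ∀ x ∈ contact f a R M ∩ ball a R, ∃ A : Cn n →L[ℝ] Cn n,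
      HasFDerivAt (vert f M) A x ∧ |A.det| ≤ 1 := by
    rintro x ⟨⟨hxc, y, hy, hxy⟩, hxb⟩
    have hloc : IsLocalMax (fun z => f z - M / 2 * ‖z - y‖ ^ 2) x := by
      filter_upwards [isOpen_ball.mem_nhds hxb] with z hz
      exact hxy z (ball_subset_closedBall hz)
    obtain ⟨-, h2⟩ := hH n f x y M hf hloc
    obtain ⟨A, hA, hAi, hAs⟩ := hT n f M x hf
    refine ⟨A, hA, hG1 n A (fun v w => hAs v w) (fun v => ?_) (hG2 n A fun w => ?_)⟩
    · rw [hAi, real_inner_self_eq_norm_sq]
      have h3 := h2 v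
      have h4 : M⁻¹ * fderiv ℝ (fderiv ℝ f) x v v ≤ M⁻¹ * (M * ‖v‖ ^ 2) :=
        mul_le_mul_of_nonneg_left h3 (inv_nonneg.2 hM.le)
      rw [← mul_assoc, inv_mul_cancel₀ hM.ne', one_mul] at h4
      linarith
    · rw [hAi, hAi, real_inner_self_eq_norm_sq, real_inner_self_eq_norm_sq]
      have h3 := hlap x hxb w
      have h4 : 0 ≤ M⁻¹ * (fderiv ℝ (fderiv ℝ f) x w w +
        fderiv ℝ (fderiv ℝ f) x (Complex.I • w) (Complex.I • w)) :=
        mul_nonneg (inv_nonneg.2 hM.le) h3
      have h5 : ‖Complex.I • w‖ = ‖w‖ := by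
        rw [norm_smul, Complex.norm_I, one_mul]
      rw [h5]
      linarith
  choose! A hA hdet using key
  calc μ (ball a (R - δ)) ≤ μ (vert f M '' (contact f a R M ∩ ball a R)) :=
        measure_mono (hI1 hH n f a R M C δ hf hC hM hδ hδR hCM)
    _ ≤ ∫⁻ x in contact f a R M ∩ ball a R, ENNReal.ofReal |(A x).det| ∂μ :=
        addHaar_image_le_lintegral_abs_det_fderiv μ hS
          (fun x hx => (hA x hx).hasFDerivWithinAt)
    _ ≤ ∫⁻ x in contact f a R M ∩ ball a R, 1 ∂μ := by
        refine setLIntegral_mono measurable_const fun x hx => ?_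
        rw [← ENNReal.ofReal_one]
        exact ENNReal.ofReal_le_ofReal (hdet x hx)
    _ = μ (contact f a R M ∩ ball a R) := by
        rw [setLIntegral_one]
    _ ≤ μ (contact f a R M) := measure_mono inter_subset_left

end Pool.Agent.H146R3.UT
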